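import Pool.Agent.Lib.MP_a785f2_an.CX3.Ex

/-! A criterion for a map that is smooth off the origin to be a weak solution. -/

open MeasureTheory Metric Filter Topology Set

namespace Pool.Agent.Lib.MP_a785f2_an.C2

open CX3

variable {n m : ℕ}

/-- `a = (1 - log |x|)^(-1/2)` -/
noncomputable def aa (x : E n) : ℝ := pw (1 / 2) (tt ‖x‖)

lemma par (hn : 3 ≤ n) : Par n (1 / 2) 1 :=
  ⟨hn, by norm_num, by norm_num, le_rfl, by
    have : (3 : ℝ) ≤ n := by exact_mod_cast hn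
    linarith⟩

lemma aa_pos {x : E n} (hx : x ∈ U n) : 0 < aa x := pw_pos _ (tt_pos (U_pos hx) hx.2.le)

lemma aa_le {x : E n} (hx : x ∈ U n) : aa x ≤ 1 :=
  pw_le_one (one_le_tt (U_pos hx) hx.2.le) (by norm_num)

lemma aa_sq {x : E n} (hx : x ∈ U n) : aa x ^ 2 * tt ‖x‖ = 1 := by
  have ht := tt_pos (U_pos hx) hx.2.le
  unfold aa
  rw [pw_pow _ ht, show ((2 : ℕ) : ℝ) * (1 / 2) = 1 by norm_num, pw_one ht]
  field_simp

lemma abs_le_gradNorm (G : Fin m → Fin n → E n → ℝ) (i : Fin m) (α : Fin n) (x : E n) :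
    |G i α x| ≤ gradNorm G x := by
  refine Real.abs_le_sqrt ?_
  calc G i α x ^ 2 ≤ ∑ α, G i α x ^ 2 :=
        Finset.single_le_sum (f := fun α => G i α x ^ 2) (fun _ _ => sq_nonneg _)
          (Finset.mem_univ α)
    _ ≤ _ := Finset.single_le_sum (f := fun i => ∑ α, G i α x ^ 2)
          (fun _ _ => Finset.sum_nonneg fun _ _ => sq_nonneg _) (Finset.mem_univ i)

theorem w1n_of (hn : 3 ≤ n) {u : Fin m → E n → ℝ} {G : Fin m → Fin n → E n → ℝ} {C : ℝ}
    (cu : ∀ i, ContinuousOn (u i) (U n)) (cG : ∀ i α, ContinuousOn (G i α) (U n))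
    (du : ∀ i α, ∀ x ∈ U n, HasLineDerivAt ℝ (u i) (G i α x) x (EuclideanSpace.single α 1))
    (hC : 0 ≤ C) (bu : ∀ i, ∀ x ∈ U n, |u i x| ≤ C * tt ‖x‖)
    (bG : ∀ x ∈ U n, gradNorm G x ≤ C * (aa x / ‖x‖)) : IsW1n u G := by
  have p := par hn
  have hn1 : 1 ≤ n := by omega
  have fin0 : IsFiniteMeasure (ballMeasure n) :=
    isFiniteMeasure_restrict.2 measure_ball_lt_top.ne
  have mG : ∀ i α, MemLp (G i α) n (ballMeasure n) := fun i α =>
    memLp_of_pw hn1 p.nb (cG i α) fun x hx => (abs_le_gradNorm G i α x).trans (bG x hx)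
  refine ⟨fun i => ?_, mG, fun i α φ hφ => ?_⟩
  · refine memLp_of_pw hn1 p.nb (C := C * 2) (cu i) fun x hx => (bu i x hx).trans ?_
    rw [mul_assoc]
    exact mul_le_mul_of_nonneg_left (tt_le p (U_pos hx) hx.2.le) hC
  · have key := ibp hn1 (V := fun δ x => kd α δ * u i x)
      (V' := fun δ x => kd α δ * G i δ x) (D := G i α) (φ := φ)
      ?_ ?_ ?_ ?_ ?_ ((mG i α).integrable (by exact_mod_cast hn1)) hφ
    · rw [← key]
      congr 1
      funext x
      simp only [mul_assoc, sum_kd_mul]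
    · intro δ x hx
      exact HasDerivAt.congr_deriv
        (hasLine_mul (hasLine_const (kd α δ) x _) (du i δ x hx)) (by simp)
    · exact fun δ => continuousOn_const.mul (cu i)
    · exact fun δ => continuousOn_const.mul (cG i δ)
    · intro x _
      exact sum_kd_mul α (fun δ => G i δ x)
    · intro δ
      refine integrable_of_pw hn1 one_lt_two (C := C * 4)
        ((continuousOn_const.mul (cu i)).div continuous_norm.continuousOn
          (fun _ hx => (U_pos hx).ne')) fun x hx => ?_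
      have h0 := U_pos hx
      have ht := one_le_tt h0 hx.2.le
      have h2 := r_tt_sq h0 hx.2.le
      have h3 : pw 2 (tt ‖x‖) = 1 / tt ‖x‖ * (1 / tt ‖x‖) := by
        rw [← pw_one (by linarith), ← pw_add 1 1 (by linarith)]
        norm_num
      have h4 : |kd α δ * u i x| ≤ C * tt ‖x‖ := by
        rw [abs_mul]
        exact (mul_le_of_le_one_left (abs_nonneg _) (abs_kd_le α δ)).trans (bu i x hx)
      have h5 : ‖x‖ ^ n ≤ ‖x‖ ^ 3 := pow_le_pow_of_le_one h0.le hx.2.le hn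
      have h6 : (‖x‖ * tt ‖x‖ ^ 2) * (‖x‖ * tt ‖x‖) ≤ 2 * 2 := by
        refine mul_le_mul h2 (le_trans ?_ h2) (by positivity) zero_le_two
        exact mul_le_mul_of_nonneg_left (le_self_pow₀ ht two_ne_zero) h0.le
      rw [abs_div, abs_of_pos h0, h3]
      calc _ ≤ C * tt ‖x‖ / ‖x‖ := div_le_div_of_nonneg_right h4 h0.le
        _ = C * ((‖x‖ * tt ‖x‖ ^ 2) * (‖x‖ * tt ‖x‖)) *
            (1 / tt ‖x‖ * (1 / tt ‖x‖) / ‖x‖ ^ 3) := by field_simp
        _ ≤ C * (2 * 2) * (1 / tt ‖x‖ * (1 / tt ‖x‖) / ‖x‖ ^ n) := by gcongr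
        _ = _ := by ring

theorem weak_of (hn : 3 ≤ n) {G V' : Fin m → Fin n → E n → ℝ}
    {Ω : Fin n → Fin m → Fin m → E n → ℝ} {w : E n → ℝ} {C : ℝ}
    (cG : ∀ i α, ContinuousOn (G i α) (U n)) (cV : ∀ i α, ContinuousOn (V' i α) (U n))
    (cΩ : ∀ α i j, ContinuousOn (Ω α i j) (U n)) (cw : ContinuousOn w (U n))
    (hw : ∀ x ∈ U n, gradNorm G x ^ (n - 2) = w x)
    (dV : ∀ i α, ∀ x ∈ U n,
      HasLineDerivAt ℝ (fun y => w y * G i α y) (V' i α x) x (EuclideanSpace.single α 1))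
    (hD : ∀ i, ∀ x ∈ U n, ∑ α, V' i α x = -∑ j, ∑ α, Ω α i j x * (w x * G j α x))
    (hC : 0 ≤ C) (bG : ∀ x ∈ U n, gradNorm G x ≤ C * (aa x / ‖x‖))
    (bΩ : ∀ α i j, ∀ x ∈ U n, |Ω α i j x| ≤ C * (aa x / ‖x‖)) : IsWeakSolution G Ω := by
  have p := par hn
  have hn1 : 1 ≤ n := by omega
  have bw : ∀ i α, ∀ x ∈ U n, |w x * G i α x| * (aa x / ‖x‖) ≤
      C ^ (n - 1) * (pw (n * (1 / 2)) (tt ‖x‖) / ‖x‖ ^ n) := fun i α x hx => by
    have h0 := U_pos hx
    have ha := aa_pos hx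
    have hG := abs_le_gradNorm G i α x
    have hρ' := bG x hx
    have hρ : 0 ≤ gradNorm G x := Real.sqrt_nonneg _
    rw [← pw_pow _ (tt_pos h0 hx.2.le), ← div_pow, ← hw x hx]
    change _ ≤ C ^ (n - 1) * (aa x / ‖x‖) ^ n
    have hc : 0 ≤ aa x / ‖x‖ := by positivity
    generalize gradNorm G x = ρ at *
    generalize aa x / ‖x‖ = c at *
    generalize G i α x = g at *
    obtain ⟨k, hk⟩ := Nat.exists_eq_add_of_le' hn
    rw [show n - 2 = k + 1 by omega, show n - 1 = k + 2 by omega, abs_mul,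
      abs_of_nonneg (by positivity), show c ^ n = c ^ (k + 3) by rw [hk]]
    calc ρ ^ (k + 1) * |g| * c ≤ ρ ^ (k + 1) * ρ * c := by gcongr
      _ = ρ ^ (k + 2) * c := by ring
      _ ≤ (C * c) ^ (k + 2) * c := by gcongr
      _ = _ := by ring
  intro i φ hφ
  have ct : ContinuousOn (fun x : E n => ‖x‖ * tt ‖x‖) (U n) :=
    continuous_norm.continuousOn.mul
      (contOn_rad fun r h0 _ => (hasDerivAt_tt h0).continuousAt)
  have key := ibp2 hn1 (V := fun α x => w x * G i α x) (V' := V' i)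
    (D := fun x => -∑ j, ∑ α, Ω α i j x * (w x * G j α x)) (φ := φ)
    (dV i) (fun α => cw.mul (cG i α)) (cV i) (hD i) ?_ ?_ ?_ hφ
  · calc _ = ∫ x, ∑ α, w x * G i α x * pd α φ x ∂(ballMeasure n) := by
          apply integral_congr_ae
          filter_upwards [ae_mem_U hn1] with x hx
          simp only [hw x hx]
      _ = _ := key
      _ = _ := by
          rw [← integral_neg]
          apply integral_congr_ae
          filter_upwards [ae_mem_U hn1] with x hx
          simp only [hw x hx, neg_mul, neg_neg]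
  · intro α
    refine integrable_of_pw hn1 p.nb (C := 2 * C ^ (n - 1)) (cw.mul (cG i α)) fun x hx => ?_
    have h1 := bw i α x hx
    have h2 : tt ‖x‖ ≤ 2 * (aa x / ‖x‖) := tt_le p (U_pos hx) hx.2.le
    have h3 := one_le_tt (U_pos hx) hx.2.le
    have h4 := mul_le_mul_of_nonneg_left (h3.trans h2) (abs_nonneg (w x * G i α x))
    linarith
  · intro α
    refine integrable_of_pw hn1 p.nb (C := C ^ (n - 1)) ((cw.mul (cG i α)).div ct
      fun x hx => (mul_pos (U_pos hx) (tt_pos (U_pos hx) hx.2.le)).ne') fun x hx => ?_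
    have h0 := U_pos hx
    have ht := one_le_tt h0 hx.2.le
    have h2 := pw_anti ht (by norm_num : (1 / 2 : ℝ) ≤ 1)
    rw [pw_one (by linarith)] at h2
    refine le_trans ?_ (bw i α x hx)
    rw [abs_div, abs_of_pos (by positivity : 0 < ‖x‖ * tt ‖x‖), div_eq_mul_one_div]
    refine mul_le_mul_of_nonneg_left ?_ (abs_nonneg _)
    rw [mul_comm, ← div_div]
    exact div_le_div_of_nonneg_right h2 h0.le
  · apply Integrable.neg
    refine integrable_finsetSum _ fun j _ => integrable_finsetSum _ fun α _ => ?_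
    refine integrable_of_pw hn1 p.nb (C := C * C ^ (n - 1))
      ((cΩ α i j).mul (cw.mul (cG j α))) fun x hx => ?_
    have h1 := mul_le_mul_of_nonneg_left (bw j α x hx) hC
    have h2 := mul_le_mul_of_nonneg_right (bΩ α i j x hx) (abs_nonneg (w x * G j α x))
    rw [abs_mul]
    linarith

theorem not_rep_of (hn : 1 ≤ n) {u : Fin m → E n → ℝ} (i : Fin m) {f : ℝ → ℝ}
    (hf : Tendsto f (𝓝[>] 0) atTop) (hu : ∀ x ∈ U n, f ‖x‖ ≤ u i x) : ¬ HasContinuousRep u := by
  rintro ⟨v, hv, hae⟩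
  have : Nontrivial (E n) := by
    have : Nonempty (Fin n) := ⟨⟨0, hn⟩⟩
    infer_instance
  have hv0 : ContinuousAt (fun x => v x i) 0 :=
    (continuous_apply i).continuousAt.comp (hv.continuousAt (ball_mem_nhds 0 one_pos))
  have h1 : ∀ᶠ x in 𝓝 (0 : E n), v x i < v 0 i + 1 := hv0.eventually (gt_mem_nhds (by linarith))
  have h2 : ∀ᶠ r in 𝓝[>] (0 : ℝ), v 0 i + 1 < f r := hf.eventually_gt_atTop _
  rw [eventually_nhdsWithin_iff] at h2
  have h3 : ∀ᶠ x in 𝓝 (0 : E n), 0 < ‖x‖ → v 0 i + 1 < f ‖x‖ := by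
    have hc : Tendsto (fun x : E n => ‖x‖) (𝓝 0) (𝓝 0) := by
      simpa using (continuous_norm (E := E n)).tendsto 0
    exact hc.eventually h2
  have h4 : ∀ᶠ x in 𝓝 (0 : E n), x ∈ ball (0 : E n) 1 := ball_mem_nhds 0 one_pos
  obtain ⟨ε, hε, hball⟩ := Metric.eventually_nhds_iff_ball.mp (h1.and (h3.and h4))
  have h5 : ∀ᵐ x ∂(ballMeasure n), x ∉ ball (0 : E n) ε := by
    filter_upwards [hae, ae_mem_U hn] with x hx hxU hxb
    obtain ⟨a, b, _⟩ := hball x hxb
    have := hx i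
    have := b (U_pos hxU)
    have := hu x hxU
    linarith
  have h6 : ballMeasure n (ball 0 ε) = 0 := measure_eq_zero_iff_ae_notMem.mpr h5
  unfold ballMeasure at h6
  rw [Measure.restrict_apply measurableSet_ball,
    inter_eq_left.mpr (fun x hx => (hball x hx).2.2)] at h6
  exact (measure_ball_pos volume (0 : E n) hε).ne' h6

end Pool.Agent.Lib.MP_a785f2_an.C2
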