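import Pool.Agent.Lib.MP_a785f2_an.C2.Abs

/-! Derivatives of functions of the radius and of one angle. -/

open MeasureTheory Metric Filter Topology Set

namespace Pool.Agent.Lib.MP_a785f2_an.C2

open CX3

variable {n : ℕ} {o : Fin n} {x : E n}

noncomputable def ee (α : Fin n) (x : E n) : ℝ := x α / ‖x‖
noncomputable def TT (o α : Fin n) (x : E n) : ℝ := kd o α - ee o x * ee α x

/-- `ft` is the derivative of `f` in `t = 1 - log |x|` and `fs` the one in `s = x o / |x|`. -/
def Dv (o : Fin n) (f : E n → ℝ) (ft fs : ℝ) (x : E n) : Prop :=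
  ∀ α, HasLineDerivAt ℝ f ((-ft * ee α x + fs * TT o α x) / ‖x‖) x (EuclideanSpace.single α 1)

lemma Dv.cg {f : E n → ℝ} {a b c d : ℝ} (h : Dv o f a b x) (h1 : a = c) (h2 : b = d) :
    Dv o f c d x := h1 ▸ h2 ▸ h

lemma Dv.add {f g : E n → ℝ} {a b c d : ℝ} (h : Dv o f a b x) (k : Dv o g c d x) :
    Dv o (fun y => f y + g y) (a + c) (b + d) x := fun α =>
  HasDerivAt.congr_deriv (hasLine_add (h α) (k α)) (by ring)

lemma Dv.mul {f g : E n → ℝ} {a b c d : ℝ} (h : Dv o f a b x) (k : Dv o g c d x) :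
    Dv o (fun y => f y * g y) (a * g x + f x * c) (b * g x + f x * d) x := fun α =>
  HasDerivAt.congr_deriv (hasLine_mul (h α) (k α)) (by ring)

lemma Dv.comp {f : E n → ℝ} {a b c : ℝ} {g : ℝ → ℝ} (h : Dv o f a b x)
    (k : HasDerivAt g c (f x)) : Dv o (fun y => g (f y)) (c * a) (c * b) x := fun α => by
  have h1 := h α
  unfold HasLineDerivAt at *
  have h2 : HasDerivAt g c (f (x + (0 : ℝ) • EuclideanSpace.single α (1 : ℝ))) := by
    simpa using k
  exact (h2.comp (0 : ℝ) h1).congr_deriv (by ring)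

lemma dv_norm (hx : x ∈ U n) : Dv o (fun y => ‖y‖) (-‖x‖) 0 x := fun α => by
  have := U_pos hx
  refine HasDerivAt.congr_deriv (hasLine_norm α hx.1) ?_
  unfold ee
  field_simp
  ring

lemma dv_inv (hx : x ∈ U n) : Dv o (fun y => ‖y‖⁻¹) ‖x‖⁻¹ 0 x := by
  have := U_pos hx
  refine ((dv_norm hx).comp (hasDerivAt_inv this.ne')).cg ?_ (mul_zero _)
  field_simp

lemma dv_aa (hx : x ∈ U n) : Dv o aa (-(aa x ^ 3 / 2)) 0 x := by
  have h0 := U_pos hx
  have ht := tt_pos h0 hx.2.le
  refine ((dv_norm hx).comp (hasDerivAt_pw (1 / 2) h0 hx.2.le)).cg ?_ (mul_zero _)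
  have h := aa_sq hx
  change 1 / 2 * aa x / _ * _ = _
  field_simp
  linear_combination (aa x) * h

lemma line_ee (hx : x ∈ U n) (j α : Fin n) :
    HasLineDerivAt ℝ (ee j) (TT j α x / ‖x‖) x (EuclideanSpace.single α 1) := by
  have h0 := U_pos hx
  have h := hasLine_mul (hasLine_coord j α x) (dv_inv (o := j) hx α)
  refine HasDerivAt.congr_deriv h ?_
  unfold TT ee
  field_simp
  ring

lemma dv_ee (hx : x ∈ U n) : Dv o (ee o) 0 1 x := fun α =>
  HasDerivAt.congr_deriv (line_ee hx o α) (by ring)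

lemma sum_ee (hx : x ∈ U n) : ∑ α, ee α x ^ 2 = 1 := by
  have h0 := U_pos hx
  simp only [ee, div_pow, ← Finset.sum_div, sum_sq]
  field_simp

lemma sum_quad (hx : x ∈ U n) (o : Fin n) (a b c d : ℝ) :
    ∑ α, (a * ee α x ^ 2 + b * (ee α x * TT o α x) + c * TT o α x ^ 2 + d) =
      a + c * (1 - ee o x ^ 2) + n * d := by
  have h : ∀ α, a * ee α x ^ 2 + b * (ee α x * TT o α x) + c * TT o α x ^ 2 + d =
      kd o α * ((b - 2 * c * ee o x) * ee α x + c * kd o α) +
        (a - b * ee o x + c * ee o x ^ 2) * ee α x ^ 2 + d := fun α => by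
    unfold TT
    ring
  simp only [h, Finset.sum_add_distrib, sum_kd_mul, ← Finset.mul_sum, sum_ee hx, kd_self,
    Finset.sum_const, Finset.card_univ, Fintype.card_fin, nsmul_eq_mul]
  ring

lemma abs_ee_le (hx : x ∈ U n) (α : Fin n) : |ee α x| ≤ 1 := by
  unfold ee
  rw [abs_div, abs_of_pos (U_pos hx), div_le_one (U_pos hx)]
  exact abs_coord_le x α

lemma abs_TT_le (hx : x ∈ U n) (o α : Fin n) : |TT o α x| ≤ 2 := by
  have h : |ee o x * ee α x| ≤ 1 := by
    rw [abs_mul]
    exact mul_le_one₀ (abs_ee_le hx o) (abs_nonneg _) (abs_ee_le hx α)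
  exact (abs_sub _ _).trans (by linarith [abs_kd_le o α])

lemma cont_ee (α : Fin n) : ContinuousOn (ee α) (U n) := contOn_div α

lemma cont_TT (o α : Fin n) : ContinuousOn (TT o α) (U n) :=
  continuousOn_const.sub ((cont_ee o).mul (cont_ee α))

lemma cont_aa : ContinuousOn (aa (n := n)) (U n) :=
  contOn_rad fun _ h0 h1 => (hasDerivAt_pw (1 / 2) h0 h1).continuousAt

/-- the field with radial part `-p` and angular part `q` -/
noncomputable def fld (o : Fin n) (p q : E n → ℝ) (α : Fin n) (x : E n) : ℝ :=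
  (-p x * ee α x + q x * TT o α x) / ‖x‖

lemma cont_fld {p q : E n → ℝ} (hp : ContinuousOn p (U n)) (hq : ContinuousOn q (U n))
    (α : Fin n) : ContinuousOn (fld o p q α) (U n) :=
  ((hp.neg.mul (cont_ee α)).add (hq.mul (cont_TT o α))).div continuous_norm.continuousOn
    fun _ hx => (U_pos hx).ne'

lemma sum_fld (hx : x ∈ U n) (p q p' q' : E n → ℝ) :
    ∑ α, fld o p q α x * fld o p' q' α x =
      (p x * p' x + (1 - ee o x ^ 2) * (q x * q' x)) / ‖x‖ ^ 2 := by
  have h : ∀ α, fld o p q α x * fld o p' q' α x = (p x * p' x * ee α x ^ 2 +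
      (-(p x * q' x) - q x * p' x) * (ee α x * TT o α x) + q x * q' x * TT o α x ^ 2 + 0) /
      ‖x‖ ^ 2 := fun α => by
    unfold fld
    ring
  simp only [h, ← Finset.sum_div, sum_quad hx]
  ring

/-- the derivative of the component `α` of the field in the direction `α` -/
noncomputable def dfl (o : Fin n) (p q pt ps qt qs : E n → ℝ) (α : Fin n) (x : E n) : ℝ :=
  ((pt x + 2 * p x + ee o x * q x) * ee α x ^ 2 +
    (-ps x - qt x - 2 * q x) * (ee α x * TT o α x) + qs x * TT o α x ^ 2 +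
    (-p x - ee o x * q x)) / ‖x‖ ^ 2

lemma line_fld (hx : x ∈ U n) {p q pt ps qt qs : E n → ℝ} (hp : Dv o p (pt x) (ps x) x)
    (hq : Dv o q (qt x) (qs x) x) (α : Fin n) :
    HasLineDerivAt ℝ (fld o p q α) (dfl o p q pt ps qt qs α x) x
      (EuclideanSpace.single α 1) := by
  have h0 := U_pos hx
  have h1 := hasLine_mul (hasLine_const (-1) x _) (hasLine_mul (line_ee hx o α) (line_ee hx α α))
  have h2 := hasLine_mul (hasLine_add
    (hasLine_mul (hasLine_mul (hasLine_const (-1) x _) (hp α)) (line_ee hx α α))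
    (hasLine_mul (hq α) (hasLine_add (hasLine_const (kd o α) x _) h1))) (dv_inv (o := o) hx α)
  have e : fld o p q α = fun y => (-1 * p y * ee α y +
      q y * (kd o α + -1 * (ee o y * ee α y))) * ‖y‖⁻¹ := by
    funext y
    unfold fld TT
    ring
  rw [e]
  refine HasDerivAt.congr_deriv h2 ?_
  unfold dfl TT
  rw [kd_self]
  field_simp
  ring

lemma cont_dfl {p q pt ps qt qs : E n → ℝ} (h1 : ContinuousOn p (U n))
    (h2 : ContinuousOn q (U n)) (h3 : ContinuousOn pt (U n)) (h4 : ContinuousOn ps (U n))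
    (h5 : ContinuousOn qt (U n)) (h6 : ContinuousOn qs (U n)) (α : Fin n) :
    ContinuousOn (dfl o p q pt ps qt qs α) (U n) := by
  have c1 := cont_ee o
  have c2 := cont_ee α
  have c3 := cont_TT o α
  refine ContinuousOn.div ?_ (continuous_norm.continuousOn.pow 2)
    fun _ hx => pow_ne_zero _ (U_pos hx).ne'
  fun_prop

lemma sum_dfl (hx : x ∈ U n) (p q pt ps qt qs : E n → ℝ) :
    ∑ α, dfl o p q pt ps qt qs α x = (pt x - (n - 2) * p x + (1 - ee o x ^ 2) * qs x -
      (n - 1) * (ee o x * q x)) / ‖x‖ ^ 2 := by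
  simp only [dfl, ← Finset.sum_div, sum_quad hx]
  ring

end Pool.Agent.Lib.MP_a785f2_an.C2
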