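import Mathlib

/-! The scalar profiles of the example with two components. -/

open Set

namespace Pool.Agent.Lib.MP_a785f2_an.C2

noncomputable def b0 (a : ℝ) : ℝ := 1 / 4 - a ^ 2 / 32 + a ^ 6 / 16
noncomputable def b1 (a : ℝ) : ℝ := -3 / 8 + 5 / 64 * a ^ 2 - 9 / 32 * a ^ 6
noncomputable def b2 (a : ℝ) : ℝ := 15 / 16 - 35 / 128 * a ^ 2 + 99 / 64 * a ^ 6
noncomputable def PP (a s : ℝ) : ℝ := 1 + a ^ 4 * b1 a * (1 - s ^ 2)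
noncomputable def p1 (a s : ℝ) : ℝ := a * PP a s
noncomputable def q1 (a s : ℝ) : ℝ := -2 * a ^ 3 * b0 a * s
noncomputable def p2 (a s : ℝ) : ℝ := -(a ^ 4 * s / 4)
noncomputable def q2 (a : ℝ) : ℝ := a ^ 2 / 4
noncomputable def p1t (a s : ℝ) : ℝ := -(a ^ 3 / 2) + a ^ 7 * b2 a * (1 - s ^ 2)
noncomputable def p1s (a s : ℝ) : ℝ := -2 * a ^ 5 * b1 a * s
noncomputable def q1s (a : ℝ) : ℝ := -2 * a ^ 3 * b0 a
noncomputable def p2t (a s : ℝ) : ℝ := a ^ 6 * s / 2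
noncomputable def p2s (a : ℝ) : ℝ := -(a ^ 4 / 4)
noncomputable def Mm (a s : ℝ) : ℝ :=
  PP a s ^ 2 + a ^ 6 * s ^ 2 / 16 + (1 - s ^ 2) * (4 * a ^ 4 * b0 a ^ 2 * s ^ 2 + a ^ 2 / 16)
noncomputable def Mt (a s : ℝ) : ℝ :=
  PP a s * (-1 + 2 * a ^ 4 * b2 a * (1 - s ^ 2)) - a ^ 6 * s ^ 2 / 4 +
    (1 - s ^ 2) * (8 * a ^ 4 * b0 a * b1 a * s ^ 2 - a ^ 2 / 8)
noncomputable def Ms (a s : ℝ) : ℝ :=
  -4 * a ^ 2 * PP a s * b1 a * s + a ^ 4 * s / 8 - 8 * a ^ 2 * b0 a ^ 2 * s ^ 3 - s / 8 +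
    8 * (1 - s ^ 2) * a ^ 2 * b0 a ^ 2 * s
noncomputable def lt (N a s : ℝ) : ℝ := (N - 2) / 2 * Mt a s / Mm a s
noncomputable def ls (N a s : ℝ) : ℝ := (N - 2) / 2 * Ms a s / Mm a s
noncomputable def E1 (N a s : ℝ) : ℝ :=
  -1 / 2 + a ^ 4 * b2 a * (1 - s ^ 2) + lt N a s * PP a s +
    (1 - s ^ 2) * (-2 * b0 a - 2 * a ^ 2 * ls N a s * b0 a * s) + 2 * (N - 1) * b0 a * s ^ 2
noncomputable def E2 (N a s : ℝ) : ℝ :=
  a ^ 4 * s / 2 - a ^ 4 * lt N a s * s / 4 + (1 - s ^ 2) * a ^ 2 * ls N a s / 4 - (N - 1) * s / 4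
noncomputable def DD (a s : ℝ) : ℝ := PP a s / 4 - a ^ 4 * b0 a * s ^ 2 / 2
noncomputable def ZZ (a s : ℝ) : ℝ :=
  a ^ 4 * b2 a - 2 * b0 a +
    a ^ 4 * b1 a * (-1 / 2 + 2 * b0 a + (a ^ 4 * b2 a - 2 * b0 a) * (1 - s ^ 2)) +
    a ^ 6 / 8 - a ^ 2 / 16
noncomputable def YY (N a s : ℝ) : ℝ :=
  (N - 1) * ZZ a s + (N - 2) / 2 * (8 * a ^ 4 * b0 a * b1 a * s ^ 2 - a ^ 2 / 8) -
    a ^ 2 * lt N a s * (4 * a ^ 2 * b0 a ^ 2 * s ^ 2 + 1 / 16) - 2 * PP a s * b0 a +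
    a ^ 2 * ls N a s * (-2 * PP a s * b0 a * s - a ^ 2 * s / 16)
noncomputable def Or (N a s : ℝ) : ℝ :=
  (2 * a ^ 2 * E1 N a s * b0 a * s - E2 N a s / 4) / DD a s
noncomputable def Ot (N a s : ℝ) : ℝ := -YY N a s / DD a s

/-- the range of the two parameters -/
def KK : Set (ℝ × ℝ) := Icc 0 1 ×ˢ Icc (-1) 1

variable {N a s : ℝ}

lemma pows (h : (a, s) ∈ KK) : 0 ≤ a ^ 2 ∧ a ^ 2 ≤ 1 ∧ 0 ≤ a ^ 4 ∧ a ^ 4 ≤ 1 ∧ 0 ≤ a ^ 6 ∧
    a ^ 6 ≤ 1 ∧ 0 ≤ s ^ 2 ∧ s ^ 2 ≤ 1 := by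
  obtain ⟨⟨h1, h2⟩, h3⟩ := h
  exact ⟨by positivity, pow_le_one₀ h1 h2, by positivity, pow_le_one₀ h1 h2, by positivity,
    pow_le_one₀ h1 h2, by positivity, (sq_le_one_iff_abs_le_one s).2 (abs_le.2 h3)⟩

lemma b0_mem (h : (a, s) ∈ KK) : 0 ≤ b0 a ∧ b0 a ≤ 5 / 16 := by
  obtain ⟨h1, h2, -, -, h3, h4, -⟩ := pows h
  unfold b0
  constructor <;> linarith

lemma PP_ge (h : (a, s) ∈ KK) : 1 - 21 / 32 * (1 - s ^ 2) ≤ PP a s := by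
  obtain ⟨h1, h2, h3, h4, h5, h6, h7, h8⟩ := pows h
  have k1 : -(21 / 32) ≤ b1 a := by unfold b1; linarith
  have k2 : -(21 / 32) ≤ a ^ 4 * b1 a := by nlinarith
  unfold PP
  nlinarith [mul_le_mul_of_nonneg_right k2 (sub_nonneg.2 h8)]

lemma Mm_pos (h : (a, s) ∈ KK) : 0 < Mm a s := by
  obtain ⟨h1, h2, h3, h4, h5, h6, h7, h8⟩ := pows h
  have k1 : 0 < PP a s := by linarith [PP_ge h]
  have k2 := sub_nonneg.2 h8
  unfold Mm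
  positivity

lemma DD_pos (h : (a, s) ∈ KK) : 0 < DD a s := by
  obtain ⟨h1, h2, h3, h4, h5, h6, h7, h8⟩ := pows h
  obtain ⟨k1, k2⟩ := b0_mem h
  have k3 : a ^ 4 * b0 a ≤ 5 / 16 := by nlinarith
  have k4 := mul_le_mul_of_nonneg_right k3 h7
  have k5 := PP_ge h
  unfold DD
  linarith

lemma key (h : (a, s) ∈ KK) :
    (1 - s ^ 2) * YY N a s = E1 N a s * PP a s - a ^ 2 * E2 N a s * s / 4 := by
  have h1 : lt N a s * Mm a s = (N - 2) / 2 * Mt a s := div_mul_cancel₀ _ (Mm_pos h).ne'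
  unfold YY E1 E2
  generalize lt N a s = l at *
  generalize ls N a s = l' at *
  unfold ZZ
  unfold Mm Mt at h1
  unfold PP b0 b1 b2 at *
  linear_combination (-1) * h1

lemma eqA (h : (a, s) ∈ KK) :
    a ^ 3 * E1 N a s = a * Or N a s * p2 a s - (1 - s ^ 2) * (a * Ot N a s * q2 a) := by
  have h1 := key (N := N) h
  have h2 := (DD_pos h).ne'
  have h3 : DD a s = PP a s / 4 - a ^ 4 * b0 a * s ^ 2 / 2 := rfl
  unfold Or Ot p2 q2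
  field_simp
  rw [h3]
  linear_combination (-4) * a ^ 3 * h1

lemma eqB (h : (a, s) ∈ KK) :
    a ^ 2 * E2 N a s = -(a * Or N a s * p1 a s) + (1 - s ^ 2) * (a * Ot N a s * q1 a s) := by
  have h1 := key (N := N) h
  have h2 := (DD_pos h).ne'
  have h3 : DD a s = PP a s / 4 - a ^ 4 * b0 a * s ^ 2 / 2 := rfl
  unfold Or Ot p1 q1
  field_simp
  rw [h3]
  linear_combination (-8) * a ^ 4 * b0 a * s * h1

lemma cont_lt : ContinuousOn (fun z : ℝ × ℝ => lt N z.1 z.2) KK := by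
  refine ContinuousOn.div ?_ ?_ fun z hz => (Mm_pos hz).ne'
  · unfold Mt PP b0 b1 b2
    fun_prop
  · unfold Mm PP b0 b1
    fun_prop

lemma cont_ls : ContinuousOn (fun z : ℝ × ℝ => ls N z.1 z.2) KK := by
  refine ContinuousOn.div ?_ ?_ fun z hz => (Mm_pos hz).ne'
  · unfold Ms PP b0 b1
    fun_prop
  · unfold Mm PP b0 b1
    fun_prop

lemma cont_Or : ContinuousOn (fun z : ℝ × ℝ => Or N z.1 z.2) KK := by
  have h1 := cont_lt (N := N)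
  have h2 := cont_ls (N := N)
  refine ContinuousOn.div ?_ ?_ fun z hz => (DD_pos hz).ne'
  · unfold E1 E2 PP b0 b1 b2
    fun_prop
  · unfold DD PP b0 b1
    fun_prop

lemma cont_Ot : ContinuousOn (fun z : ℝ × ℝ => Ot N z.1 z.2) KK := by
  have h1 := cont_lt (N := N)
  have h2 := cont_ls (N := N)
  refine ContinuousOn.div ?_ ?_ fun z hz => (DD_pos hz).ne'
  · unfold YY ZZ PP b0 b1 b2
    fun_prop
  · unfold DD PP b0 b1
    fun_prop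

lemma cont_Mm : Continuous fun z : ℝ × ℝ => Mm z.1 z.2 := by
  unfold Mm PP b0 b1
  fun_prop

lemma exists_bound (N : ℝ) : ∃ C, 3 ≤ C ∧ ∀ a s, (a, s) ∈ KK →
    √(Mm a s) ≤ C ∧ |Or N a s| + 2 * |Ot N a s| ≤ C := by
  have hK : IsCompact KK := isCompact_Icc.prod isCompact_Icc
  have h : ContinuousOn
      (fun z : ℝ × ℝ => √(Mm z.1 z.2) + (|Or N z.1 z.2| + 2 * |Ot N z.1 z.2|)) KK :=
    cont_Mm.sqrt.continuousOn.add (cont_Or.abs.add (continuousOn_const.mul cont_Ot.abs))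
  obtain ⟨C, hC⟩ := hK.exists_bound_of_continuousOn h
  refine ⟨max 3 C, le_max_left _ _, fun a s hz => ?_⟩
  have h1 := (le_abs_self _).trans ((hC _ hz).trans (le_max_right 3 C))
  have h2 := Real.sqrt_nonneg (Mm a s)
  have h3 := abs_nonneg (Or N a s)
  have h4 := abs_nonneg (Ot N a s)
  constructor <;> linarith

end Pool.Agent.Lib.MP_a785f2_an.C2
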