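import Pool.Agent.Lib.MP_a785f2_an.C2.Dv
import Pool.Agent.Lib.MP_a785f2_an.C2.Scal

/-! The example with two components. -/

open MeasureTheory Metric Filter Topology Set

namespace Pool.Agent.Lib.MP_a785f2_an.C2

open CX3

variable {n : ℕ} {o : Fin n} {x : E n}

lemma mem_KK (hx : x ∈ U n) (o : Fin n) : (aa x, ee o x) ∈ KK :=
  ⟨⟨(aa_pos hx).le, aa_le hx⟩, abs_le.1 (abs_ee_le hx o)⟩

lemma cont_of {F : ℝ → ℝ → ℝ} (h : ContinuousOn (fun z : ℝ × ℝ => F z.1 z.2) KK) :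
    ContinuousOn (fun x : E n => F (aa x) (ee o x)) (U n) :=
  h.comp (cont_aa.prodMk (cont_ee o)) fun _ hx => mem_KK hx o

lemma Dv.of_eq {f g : E n → ℝ} {a b c d : ℝ} (h : Dv o f a b x) (e : ∀ y, g y = f y)
    (h1 : a = c) (h2 : b = d) : Dv o g c d x := by
  rw [funext e]
  exact h.cg h1 h2

lemma dv_pow (hx : x ∈ U n) (c : ℝ) (k : ℕ) :
    Dv o (fun y => c * aa y ^ (k + 1)) (-(c * (k + 1) / 2 * aa x ^ (k + 3))) 0 x := by
  refine ((dv_aa hx).comp ((hasDerivAt_pow (k + 1) (aa x)).const_mul c)).cg ?_ (mul_zero _)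
  simp only [Nat.add_sub_cancel]
  push_cast
  ring

lemma dv_sig (hx : x ∈ U n) : Dv o (fun y => 1 - ee o y ^ 2) 0 (-2 * ee o x) x :=
  ((dv_ee hx).comp ((hasDerivAt_pow 2 (ee o x)).const_sub 1)).cg (mul_zero _) (by norm_num)

lemma dv_b0 (hx : x ∈ U n) :
    Dv o (fun y => aa y ^ 3 * b0 (aa y)) (aa x ^ 5 * b1 (aa x)) 0 x := by
  refine (((dv_pow hx (1 / 4) 2).add (dv_pow hx (-1 / 32) 4)).add (dv_pow hx (1 / 16) 8)).of_eq
    (fun y => ?_) ?_ (by ring)
  · unfold b0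
    ring
  · unfold b1
    push_cast
    ring

lemma dv_b1 (hx : x ∈ U n) :
    Dv o (fun y => aa y ^ 5 * b1 (aa y)) (aa x ^ 7 * b2 (aa x)) 0 x := by
  refine (((dv_pow hx (-3 / 8) 4).add (dv_pow hx (5 / 64) 6)).add
    (dv_pow hx (-9 / 32) 10)).of_eq (fun y => ?_) ?_ (by ring)
  · unfold b1
    ring
  · unfold b2
    push_cast
    ring

noncomputable def uu (o : Fin n) : Fin 2 → E n → ℝ :=
  ![fun x => 2 * (aa x)⁻¹ + aa x ^ 3 * b0 (aa x) * (1 - ee o x ^ 2),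
    fun x => 1 / 4 * aa x ^ 2 * ee o x]
noncomputable def pp (o : Fin n) : Fin 2 → E n → ℝ :=
  ![fun x => p1 (aa x) (ee o x), fun x => p2 (aa x) (ee o x)]
noncomputable def qq (o : Fin n) : Fin 2 → E n → ℝ :=
  ![fun x => q1 (aa x) (ee o x), fun x => q2 (aa x)]
noncomputable def pt (o : Fin n) : Fin 2 → E n → ℝ :=
  ![fun x => p1t (aa x) (ee o x), fun x => p2t (aa x) (ee o x)]
noncomputable def ps (o : Fin n) : Fin 2 → E n → ℝ :=
  ![fun x => p1s (aa x) (ee o x), fun x => p2s (aa x)]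
noncomputable def qs (n : ℕ) : Fin 2 → E n → ℝ := ![fun x => q1s (aa x), fun _ => 0]
noncomputable def GG (o : Fin n) (i : Fin 2) : Fin n → E n → ℝ := fld o (pp o i) (qq o i)

lemma dv_uu (hx : x ∈ U n) : ∀ i, Dv o (uu o i) (pp o i x) (qq o i x) x := by
  have ha := aa_pos hx
  refine Fin.forall_fin_two.2 ⟨?_, ?_⟩
  · refine (((dv_aa hx).comp ((hasDerivAt_inv ha.ne').const_mul 2)).add
      ((dv_b0 hx).mul (dv_sig hx))).cg ?_ ?_
    · change _ = p1 _ _
      unfold p1 PP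
      field_simp
      ring
    · change _ = q1 _ _
      unfold q1
      ring
  · refine ((dv_pow hx (1 / 4) 1).mul (dv_ee hx)).cg ?_ ?_
    · change _ = p2 _ _
      unfold p2
      push_cast
      ring
    · change _ = q2 _
      unfold q2
      ring

lemma dv_pp (hx : x ∈ U n) : ∀ i, Dv o (pp o i) (pt o i x) (ps o i x) x := by
  refine Fin.forall_fin_two.2 ⟨?_, ?_⟩
  · refine ((dv_aa hx).add ((dv_b1 hx).mul (dv_sig hx))).of_eq (fun y => ?_) ?_ ?_
    · change p1 _ _ = _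
      unfold p1 PP
      ring
    · change _ = p1t _ _
      unfold p1t
      ring
    · change _ = p1s _ _
      unfold p1s
      ring
  · refine ((dv_pow hx (-1 / 4) 3).mul (dv_ee hx)).of_eq (fun y => ?_) ?_ ?_
    · change p2 _ _ = _
      unfold p2
      ring
    · change _ = p2t _ _
      unfold p2t
      push_cast
      ring
    · change _ = p2s _
      unfold p2s
      ring

lemma dv_qq (hx : x ∈ U n) : ∀ i, Dv o (qq o i) (ps o i x) (qs n i x) x := by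
  refine Fin.forall_fin_two.2 ⟨?_, ?_⟩
  · refine ((dv_b0 hx).mul ((dv_ee hx).comp ((hasDerivAt_id' _).const_mul (-2)))).of_eq
      (fun y => ?_) ?_ ?_
    · change q1 _ _ = _
      unfold q1
      ring
    · change _ = p1s _ _
      unfold p1s
      ring
    · change _ = q1s _
      unfold q1s
      ring
  · refine (dv_pow hx (1 / 4) 1).of_eq (fun y => ?_) ?_ rfl
    · change q2 _ = _
      unfold q2
      ring
    · change _ = p2s _
      unfold p2s
      push_cast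
      ring

noncomputable def MM (o : Fin n) (x : E n) : ℝ :=
  pp o 0 x * pp o 0 x + (1 - ee o x ^ 2) * (qq o 0 x * qq o 0 x) +
    (pp o 1 x * pp o 1 x + (1 - ee o x ^ 2) * (qq o 1 x * qq o 1 x))

lemma MM_eq (x : E n) : MM o x = aa x ^ 2 * Mm (aa x) (ee o x) := by
  change p1 _ _ * p1 _ _ + _ * (q1 _ _ * q1 _ _) + (p2 _ _ * p2 _ _ + _ * (q2 _ * q2 _)) = _
  unfold p1 q1 p2 q2 Mm
  ring

lemma dv_MM (hx : x ∈ U n) :
    Dv o (MM o) (aa x ^ 4 * Mt (aa x) (ee o x)) (aa x ^ 4 * Ms (aa x) (ee o x)) x := by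
  have h := fun i => ((dv_pp (o := o) hx i).mul (dv_pp hx i)).add
    ((dv_sig hx).mul ((dv_qq hx i).mul (dv_qq hx i)))
  refine ((h 0).add (h 1)).cg ?_ ?_
  · simp only [pp, qq, pt, ps, Matrix.cons_val_zero, Matrix.cons_val_one]
    unfold p1 q1 p2 q2 p1t p1s p2t p2s Mt
    ring
  · simp only [pp, qq, ps, qs, Matrix.cons_val_zero, Matrix.cons_val_one]
    unfold p1 q1 p2 q2 p1s q1s p2s Ms
    ring

noncomputable def ww (o : Fin n) (x : E n) : ℝ := (√(MM o x) * ‖x‖⁻¹) ^ (n - 2)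
noncomputable def wt (o : Fin n) (x : E n) : ℝ :=
  ww o x * (aa x ^ 2 * lt n (aa x) (ee o x) + (n - 2))
noncomputable def ws (o : Fin n) (x : E n) : ℝ := ww o x * (aa x ^ 2 * ls n (aa x) (ee o x))

lemma gradNorm_GG (hx : x ∈ U n) : gradNorm (GG o) x = √(MM o x) * ‖x‖⁻¹ := by
  unfold gradNorm
  simp only [Fin.sum_univ_two, GG, sq (fld _ _ _ _ _), sum_fld hx]
  rw [← add_div, Real.sqrt_div' _ (by positivity), Real.sqrt_sq (norm_nonneg _), div_eq_mul_inv]
  rfl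

lemma dv_ww (hn : 3 ≤ n) (hx : x ∈ U n) : Dv o (ww o) (wt o x) (ws o x) x := by
  have ha := aa_pos hx
  have hm := Mm_pos (mem_KK hx o)
  have hM : 0 < MM o x := by rw [MM_eq]; positivity
  have hq := Real.sqrt_pos.2 hM
  have hqq : √(MM o x) ^ 2 = aa x ^ 2 * Mm (aa x) (ee o x) := by
    rw [Real.sq_sqrt hM.le, MM_eq]
  have h1 := ((dv_MM hx).comp (Real.hasDerivAt_sqrt hM.ne')).mul (dv_inv hx)
  obtain ⟨k, hk⟩ := Nat.exists_eq_add_of_le' hn
  have e1 : n - 2 = k + 1 := by omega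
  have e2 : (n : ℝ) - 2 = k + 1 := by rw [hk]; push_cast; ring
  refine (h1.comp (hasDerivAt_pow (n - 2) _)).cg ?_ ?_
  · unfold wt ww lt
    rw [e2, e1, Nat.add_sub_cancel, pow_succ _ k]
    generalize (√(MM o x) * ‖x‖⁻¹) ^ k = v
    generalize √(MM o x) = q at *
    push_cast
    field_simp
    rw [hqq]
    ring
  · unfold ws ww ls
    rw [e2, e1, Nat.add_sub_cancel, pow_succ _ k]
    generalize (√(MM o x) * ‖x‖⁻¹) ^ k = v
    generalize √(MM o x) = q at *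
    push_cast
    field_simp
    rw [hqq]
    ring

noncomputable def om (o : Fin n) : Fin n → E n → ℝ :=
  fld o (fun x => -(aa x * Or n (aa x) (ee o x))) (fun x => aa x * Ot n (aa x) (ee o x))
noncomputable def Om (o α : Fin n) : Fin 2 → Fin 2 → E n → ℝ :=
  ![![fun _ => 0, om o α], ![fun x => -om o α x, fun _ => 0]]
noncomputable def VV (o : Fin n) (i : Fin 2) : Fin n → E n → ℝ :=
  dfl o (fun x => ww o x * pp o i x) (fun x => ww o x * qq o i x)
    (fun x => wt o x * pp o i x + ww o x * pt o i x)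
    (fun x => ws o x * pp o i x + ww o x * ps o i x)
    (fun x => wt o x * qq o i x + ww o x * ps o i x)
    (fun x => ws o x * qq o i x + ww o x * qs n i x)

lemma line_VV (hn : 3 ≤ n) (hx : x ∈ U n) (i : Fin 2) (α : Fin n) :
    HasLineDerivAt ℝ (fun y => ww o y * GG o i α y) (VV o i α x) x
      (EuclideanSpace.single α 1) := by
  have e : (fun y => ww o y * GG o i α y) =
      fld o (fun x => ww o x * pp o i x) (fun x => ww o x * qq o i x) α := by
    funext y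
    unfold GG fld
    ring
  rw [e]
  exact line_fld hx ((dv_ww hn hx).mul (dv_pp hx i)) ((dv_ww hn hx).mul (dv_qq hx i)) α

lemma sum_VV (hx : x ∈ U n) :
    ∀ i, ∑ α, VV o i α x = -∑ j, ∑ α, Om o α i j x * (ww o x * GG o j α x) := by
  have hK := mem_KK hx o
  refine Fin.forall_fin_two.2 ⟨?_, ?_⟩
  · simp only [Fin.sum_univ_two, Om, Matrix.cons_val_zero, Matrix.cons_val_one, zero_mul,
      Finset.sum_const_zero, zero_add, mul_left_comm _ (ww o x), ← Finset.mul_sum, VV, GG, om,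
      sum_fld hx, sum_dfl hx, pp, qq, pt, qs, wt, ws]
    have h := eqA (N := n) hK
    unfold E1 at h
    unfold p1 q1 p1t q1s
    linear_combination (ww o x / ‖x‖ ^ 2) * h
  · simp only [Fin.sum_univ_two, Om, Matrix.cons_val_zero, Matrix.cons_val_one, zero_mul,
      Finset.sum_const_zero, add_zero, neg_mul, Finset.sum_neg_distrib,
      mul_left_comm _ (ww o x), ← Finset.mul_sum, VV, GG, om,
      sum_fld hx, sum_dfl hx, pp, qq, pt, qs, wt, ws]
    have h := eqB (N := n) hK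
    unfold E2 at h
    unfold p2 q2 p2t
    linear_combination (ww o x / ‖x‖ ^ 2) * h

lemma cont_all (i : Fin 2) : ContinuousOn (uu o i) (U n) ∧ ContinuousOn (pp o i) (U n) ∧
    ContinuousOn (qq o i) (U n) ∧ ContinuousOn (pt o i) (U n) ∧ ContinuousOn (ps o i) (U n) ∧
    ContinuousOn (qs n i) (U n) := by
  have h1 := cont_aa (n := n)
  have h2 := cont_ee o
  have h3 : ContinuousOn (fun x : E n => (aa x)⁻¹) (U n) := h1.inv₀ fun _ hx => (aa_pos hx).ne'
  revert i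
  refine Fin.forall_fin_two.2 ⟨?_, ?_⟩ <;>
    simp only [uu, pp, qq, pt, ps, qs, Matrix.cons_val_zero, Matrix.cons_val_one, p1, q1, p2, q2,
      p1t, p1s, q1s, p2t, p2s, PP, b0, b1, b2] <;>
    refine ⟨?_, ?_, ?_, ?_, ?_, ?_⟩ <;> fun_prop

lemma cont_ww : ContinuousOn (ww o) (U n) := by
  have h : ContinuousOn (MM o) (U n) := by
    rw [funext MM_eq]
    exact (cont_aa.pow 2).mul (cont_of cont_Mm.continuousOn)
  exact (h.sqrt.mul (continuous_norm.continuousOn.inv₀ fun _ hx => (U_pos hx).ne')).pow _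

lemma cont_VV (i : Fin 2) (α : Fin n) : ContinuousOn (VV o i α) (U n) := by
  obtain ⟨-, h1, h2, h3, h4, h5⟩ := cont_all (o := o) i
  have h6 := cont_ww (o := o)
  have h7 : ContinuousOn (wt o) (U n) :=
    h6.mul (((cont_aa.pow 2).mul (cont_of cont_lt)).add continuousOn_const)
  have h8 : ContinuousOn (ws o) (U n) := h6.mul ((cont_aa.pow 2).mul (cont_of cont_ls))
  exact cont_dfl (h6.mul h1) (h6.mul h2) ((h7.mul h1).add (h6.mul h3))
    ((h8.mul h1).add (h6.mul h4)) ((h7.mul h2).add (h6.mul h4)) ((h8.mul h2).add (h6.mul h5)) α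

lemma cont_Om (α : Fin n) : ∀ i j, ContinuousOn (Om o α i j) (U n) := by
  have h : ContinuousOn (om o α) (U n) :=
    cont_fld (cont_aa.mul (cont_of cont_Or)).neg (cont_aa.mul (cont_of cont_Ot)) α
  exact Fin.forall_fin_two.2 ⟨Fin.forall_fin_two.2 ⟨continuousOn_const, h⟩,
    Fin.forall_fin_two.2 ⟨h.neg, continuousOn_const⟩⟩

lemma uu_bound (hx : x ∈ U n) : 2 * (aa x)⁻¹ ≤ uu o 0 x ∧ ∀ i, |uu o i x| ≤ 3 * tt ‖x‖ := by
  have hK := mem_KK hx o
  obtain ⟨h1, h2, -, -, -, -, h3, h4⟩ := pows hK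
  obtain ⟨k1, k2⟩ := b0_mem hK
  have ha := aa_pos hx
  have ha1 := aa_le hx
  have ht := one_le_tt (U_pos hx) hx.2.le
  have k3 : 0 ≤ aa x ^ 3 * b0 (aa x) * (1 - ee o x ^ 2) :=
    mul_nonneg (by positivity) (by linarith)
  have k4 : aa x ^ 3 * b0 (aa x) * (1 - ee o x ^ 2) ≤ 1 :=
    mul_le_one₀ (mul_le_one₀ (pow_le_one₀ ha.le ha1) k1 (by linarith)) (by linarith) (by linarith)
  have k5 : (aa x)⁻¹ ≤ tt ‖x‖ := by
    rw [inv_le_iff_one_le_mul₀ ha]
    nlinarith [aa_sq hx, mul_nonneg (mul_nonneg ha.le (sub_nonneg.2 ha1)) (zero_le_one.trans ht)]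
  have k6 : 0 < (aa x)⁻¹ := inv_pos.2 ha
  refine ⟨le_add_of_nonneg_right k3, Fin.forall_fin_two.2 ⟨?_, ?_⟩⟩
  · change |2 * (aa x)⁻¹ + _| ≤ _
    rw [abs_of_nonneg (by linarith)]
    linarith
  · change |1 / 4 * aa x ^ 2 * ee o x| ≤ _
    rw [abs_mul, abs_of_nonneg (by positivity)]
    nlinarith [abs_ee_le hx o, abs_nonneg (ee o x)]

theorem two (hn : 3 ≤ n) : ∃ (u : Fin 2 → E n → ℝ) (G : Fin 2 → Fin n → E n → ℝ)
    (Ω : Fin n → Fin 2 → Fin 2 → E n → ℝ) (C : ℝ), 0 < C ∧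
    IsW1n u G ∧ IsAntisymPotential Ω ∧ IsWeakSolution G Ω ∧ ¬ HasContinuousRep u ∧
    ∀ α i j, ∀ x ∈ U n, |Ω α i j x| ≤ C * (aa x / ‖x‖) := by
  obtain ⟨C, hC, hb⟩ := exists_bound n
  have hn1 : 1 ≤ n := by omega
  let o : Fin n := ⟨0, hn1⟩
  have C0 : 0 < C := by linarith
  have cG : ∀ i α, ContinuousOn (GG o i α) (U n) := fun i α =>
    cont_fld (cont_all i).2.1 (cont_all i).2.2.1 α
  have bG : ∀ x ∈ U n, gradNorm (GG o) x ≤ C * (aa x / ‖x‖) := fun x hx => by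
    have ha := aa_pos hx
    have h0 := U_pos hx
    rw [gradNorm_GG hx, MM_eq, Real.sqrt_mul (by positivity), Real.sqrt_sq ha.le]
    calc _ = √(Mm (aa x) (ee o x)) * (aa x / ‖x‖) := by ring
      _ ≤ _ := mul_le_mul_of_nonneg_right (hb _ _ (mem_KK hx o)).1 (by positivity)
  have bo : ∀ α, ∀ x ∈ U n, |om o α x| ≤ C * (aa x / ‖x‖) := fun α x hx => by
    have ha := aa_pos hx
    have h0 := U_pos hx
    have e : om o α x =
        (Or n (aa x) (ee o x) * ee α x + Ot n (aa x) (ee o x) * TT o α x) * (aa x / ‖x‖) := by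
      unfold om fld
      ring
    rw [e, abs_mul, abs_of_pos (by positivity : 0 < aa x / ‖x‖)]
    refine mul_le_mul_of_nonneg_right ((abs_add_le _ _).trans ?_) (by positivity)
    rw [abs_mul, abs_mul]
    have h1 := mul_le_mul_of_nonneg_left (abs_ee_le hx α) (abs_nonneg (Or n (aa x) (ee o x)))
    have h2 := mul_le_mul_of_nonneg_left (abs_TT_le hx o α) (abs_nonneg (Ot n (aa x) (ee o x)))
    linarith [(hb _ _ (mem_KK hx o)).2]
  have bΩ : ∀ α i j, ∀ x ∈ U n, |Om o α i j x| ≤ C * (aa x / ‖x‖) := fun α => by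
    have h0 : ∀ x ∈ U n, |(0 : ℝ)| ≤ C * (aa x / ‖x‖) := fun x hx =>
      abs_zero.trans_le ((abs_nonneg _).trans (bo α x hx))
    exact Fin.forall_fin_two.2 ⟨Fin.forall_fin_two.2 ⟨h0, bo α⟩,
      Fin.forall_fin_two.2 ⟨fun x hx => (abs_neg _).trans_le (bo α x hx), h0⟩⟩
  refine ⟨uu o, GG o, Om o, C, C0, w1n_of hn (fun i => (cont_all i).1) cG
    (fun i α x hx => dv_uu hx i α) C0.le (fun i x hx => ((uu_bound hx).2 i).trans ?_) bG,
    ⟨fun α i j => memLp_of_pw hn1 (par hn).nb (cont_Om α i j) (bΩ α i j), fun α => ?_⟩,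
    weak_of hn cG cont_VV cont_Om cont_ww (fun x hx => by rw [gradNorm_GG hx]; rfl)
      (fun i α x hx => line_VV hn hx i α) (fun i x hx => sum_VV hx i) C0.le bG bΩ,
    not_rep_of hn1 0 (f := fun r => 2 * (pw (1 / 2) (tt r))⁻¹) ?_ fun x hx => (uu_bound hx).1, bΩ⟩
  · exact mul_le_mul_of_nonneg_right hC (tt_pos (U_pos hx) hx.2.le).le
  · exact Fin.forall_fin_two.2 ⟨Fin.forall_fin_two.2 ⟨ae_of_all _ fun _ => neg_zero.symm,
      ae_of_all _ fun _ => rfl⟩, Fin.forall_fin_two.2 ⟨ae_of_all _ fun _ => (neg_neg _).symm,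
      ae_of_all _ fun _ => neg_zero.symm⟩⟩
  · refine Tendsto.const_mul_atTop two_pos ?_
    refine ((tendsto_rpow_atTop (by norm_num : (0 : ℝ) < 1 / 2)).comp tendsto_tt).congr' ?_
    filter_upwards [Ioo_mem_nhdsGT one_pos] with r hr
    rw [pw, Real.rpow_neg (tt_pos hr.1 hr.2.le).le, inv_inv]
    rfl

end Pool.Agent.Lib.MP_a785f2_an.C2
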