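import Pool.Agent.Lib.MP_a785f2_an.C2.Ex

/-! Adding zero components to an example. -/

open MeasureTheory Metric Filter Topology Set

namespace Pool.Agent.Lib.MP_a785f2_an.C2

open CX3

variable {n : ℕ}

/-- A discontinuous solution with `m` components and a potential of borderline size. -/
def Bad (n m : ℕ) : Prop :=
  ∃ (u : Fin m → E n → ℝ) (G : Fin m → Fin n → E n → ℝ)
    (Ω : Fin n → Fin m → Fin m → E n → ℝ) (C : ℝ), 0 < C ∧
    IsW1n u G ∧ IsAntisymPotential Ω ∧ IsWeakSolution G Ω ∧ ¬ HasContinuousRep u ∧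
    ∀ α i j, ∀ x ∈ U n, |Ω α i j x| ≤ C * (aa x / ‖x‖)

theorem Bad.succ {m : ℕ} (h : Bad n m) : Bad n (m + 1) := by
  obtain ⟨u, G, Ω, C, C0, ⟨u1, u2, u3⟩, ⟨a1, a2⟩, he, hc, hb⟩ := h
  have z : MemLp (fun _ : E n => (0 : ℝ)) n (ballMeasure n) := MemLp.zero
  refine ⟨Fin.cons (fun _ => 0) u, Fin.cons (fun _ _ => 0) G,
    fun α => Fin.cons (fun _ _ => 0) fun i => Fin.cons (fun _ => 0) (Ω α i), C, C0,
    ⟨Fin.cases z u1, Fin.cases (fun _ => z) u2, Fin.cases (fun α φ _ => by simp) u3⟩,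
    ⟨fun α => Fin.cases (fun _ => z) fun i => Fin.cases z (a1 α i), fun α i j => ?_⟩,
    fun i φ hφ => ?_, fun ⟨v, v1, v2⟩ => hc ⟨fun x i => v x i.succ, ?_, ?_⟩, fun α i j x hx => ?_⟩
  · refine Fin.cases ?_ (fun i => ?_) i <;> refine Fin.cases ?_ (fun j => ?_) j
    · simp
    · simp
    · simp
    · exact a2 α i j
  · have e : gradNorm (Fin.cons (fun _ _ => 0) G : Fin (m + 1) → Fin n → E n → ℝ) =
        gradNorm G := by
      funext x
      simp [gradNorm, Fin.sum_univ_succ]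
    rw [e]
    refine Fin.cases ?_ (fun i => ?_) i
    · simp
    · simpa only [Fin.sum_univ_succ, Fin.cons_zero, Fin.cons_succ, zero_mul,
        Finset.sum_const_zero, zero_add] using he i φ hφ
  · exact continuousOn_pi.2 fun i => (continuous_apply i.succ).comp_continuousOn v1
  · exact v2.mono fun x hx i => hx i.succ
  · have h0 : |(0 : ℝ)| ≤ C * (aa x / ‖x‖) := by
      have := aa_pos hx
      rw [abs_zero]
      positivity
    refine Fin.cases h0 (fun i => ?_) i
    exact Fin.cases h0 (fun j => hb α i j x hx) j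

theorem bad (hn : 3 ≤ n) {m : ℕ} (hm : 2 ≤ m) : Bad n m :=
  Nat.le_induction (two hn) (fun _ _ h => h.succ) m hm

end Pool.Agent.Lib.MP_a785f2_an.C2
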