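import Pool.Agent.Lib.MP_a785f2_an.LO.Tr
import Pool.Agent.Lib.MP_a785f2_an.LO.Scale
import Pool.Agent.Lib.MP_a785f2_an.C2.Pad

/-! The exact threshold on the Lorentz scale for every number of components. -/

open MeasureTheory Metric Set

namespace Pool.Agent.Lib.MP_a785f2_an.C2

theorem sharp (n : ℕ) (hn : 3 ≤ n) (m : ℕ) (q : ℝ) (hq : 0 < q) :
    (∀ (u : Fin m → E n → ℝ) (G : Fin m → Fin n → E n → ℝ)
      (Ω : Fin n → Fin m → Fin m → E n → ℝ), IsW1n u G → IsAntisymPotential Ω →
      (∀ α i j, InLorentzSpace q (Ω α i j)) → IsWeakSolution G Ω → HasContinuousRep u) ↔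
    m ≤ 1 ∨ q ≤ 2 := by
  have hn1 : 1 ≤ n := by omega
  refine ⟨fun H => ?_, fun h u G Ω hu hΩ hL he => LO.main hn u G Ω hu hΩ (fun α i j => ?_) he⟩
  · by_contra h2
    rw [not_or, not_le, not_le] at h2
    obtain ⟨u, G, Ω, C, C0, hu, hΩ, he, hc, hb⟩ := bad hn (m := m) h2.1
    refine hc (H u G Ω hu hΩ (fun α i j => LO.scale_up hn1 h2.2 C0 ?_) he)
    filter_upwards [ae_mem_U hn1] with x hx
    refine (hb α i j x hx).trans_eq ?_
    have h0 := U_pos hx
    rw [aa, CX3.pw, Real.rpow_neg (CX3.tt_pos h0 hx.2.le).le, CX3.tt]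
    field_simp
  · rcases h with h | h
    · obtain rfl : i = j := Fin.ext (by omega)
      have z : ∀ t ∈ Ioi (0 : ℝ), ENNReal.ofReal t *
          ballMeasure n {x | t < |Ω α i i x|} ^ (2 / n : ℝ) = 0 := fun t ht => by
        have e : ballMeasure n {x | t < |Ω α i i x|} = 0 := by
          refine measure_eq_zero_iff_ae_notMem.2 ((hΩ.2 α i i).mono fun x hx => ?_)
          have : Ω α i i x = 0 := by linarith
          simpa [this] using le_of_lt ht
        rw [e, ENNReal.zero_rpow_of_pos (by positivity), mul_zero]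
      unfold LO.InLorentz
      rw [setLIntegral_congr_fun measurableSet_Ioi z]
      simp
    · exact LO.scale_down hn1 hq h (hL α i j)

end Pool.Agent.Lib.MP_a785f2_an.C2
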